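import Pool.Agent.L7h5.GL.Linb

set_option autoImplicit false

/-! Project GL, part GOOD (backup). -/

namespace Pool.Agent.L7h5.GL
open Cardinal Pool.Agent.L7h3.GL

lemma chain_ge {L : Type} [CompleteLattice L] : ∀ (l : List L) (a : L), l.head? = some a →
    l.IsChain (· ⋖ ·) → ∀ z ∈ l, a ≤ z := by
  intro l
  induction l with
  | nil => intro a h; simp at h
  | cons c l ih =>
    intro a h hc z hz
    simp only [List.head?_cons, Option.some.injEq] at h
    subst h
    rcases List.mem_cons.1 hz with rfl | hz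
    · exact le_rfl
    · cases l with
      | nil => simp at hz
      | cons d l' =>
        rw [List.isChain_cons_cons] at hc
        exact hc.1.le.trans (ih d rfl hc.2 z hz)

theorem s_GOOD (hG : S_GCON) (hL : S_LIFT) (hR : S_RICH) (hGR : S_GRD) : S_GOOD := by
  classical
  intro L _ ρ hρ b T B hT hinf hB hBc hlk hgood
  have hinf' : ℵ₀ ≤ #T := Cardinal.infinite_iff.1 hinf.to_subtype
  obtain ⟨p0, hp0, hp0'⟩ := hlk
  set W : Set L := ⋃ x ∈ B, {z | z ∈ p0 x} with hW
  have hWc : #W < #T := by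
    by_cases hfin : B.Finite
    · have h1 : W.Finite := hfin.biUnion fun x _ => List.finite_toSet (p0 x)
      exact (Cardinal.lt_aleph0_iff_set_finite.2 h1).trans_le hinf'
    · have hBi : ℵ₀ ≤ #B := Cardinal.infinite_iff.1 (Set.infinite_coe_iff.2 hfin)
      have h1 : #W ≤ #B * ℵ₀ := by
        refine (Cardinal.mk_biUnion_le _ _).trans ?_
        refine mul_le_mul' le_rfl (ciSup_le' fun x => ?_)
        exact (Cardinal.lt_aleph0_iff_set_finite.2 (List.finite_toSet (p0 x))).le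
      rw [Cardinal.mul_aleph0_eq hBi] at h1
      exact h1.trans_lt hBc
  have hK : ∀ x ∈ T \ B, ∃ (U : Set L) (q : L → List L), U ⊆ Con x T ∧ #U = #T ∧
      (∀ a ∈ U, Pc (tp x (Con x T)) a (q a) ∧ ∀ z ∈ q a, Gen x (Con x T) z) ∧
      ∀ a ∈ U, ∀ a' ∈ U, a ≠ a' → List.Disjoint (q a) (q a') := by
    intro x hx
    obtain ⟨g1, g2, g3⟩ := hG L ρ hρ b T x hT hx.1
    have hinfx : (Con x T).Infinite := by
      rw [← Set.infinite_coe_iff, Cardinal.infinite_iff, hgood x hx.1 hx.2]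
      exact hinf'
    obtain ⟨U, hU, hUc, q, hq1, hq2⟩ := hR L ρ hρ x (Con x T) g1 hinfx
    exact ⟨U, q, hU, hUc.trans (hgood x hx.1 hx.2), hq1, hq2⟩
  choose! U q hU hUc hq1 hq2 using hK
  have hdisj : ∀ i ∈ T \ B, ∀ l ∈ (q i) '' (U i), ∀ l' ∈ (q i) '' (U i), l ≠ l' →
      List.Disjoint l l' := by
    rintro i hi _ ⟨a, ha, rfl⟩ _ ⟨a', ha', rfl⟩ hne
    exact hq2 i hi a ha a' ha' (fun h => hne (by rw [h]))
  have hinj : ∀ i ∈ T \ B, Set.InjOn (q i) (U i) := by
    intro i hi a ha a' ha' h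
    by_contra hne
    have h1 := hq2 i hi a ha a' ha' hne
    have h2 := (hq1 i hi a ha).1.1
    have h3 : a ∈ q i a := List.mem_of_mem_head? (by rw [h2]; rfl)
    exact h1 h3 (h ▸ h3)
  obtain ⟨p, hp1, hp2⟩ := hGR L (T \ B) W #T (fun i => (q i) '' (U i)) hinf'
    (Cardinal.mk_le_mk_of_subset fun x hx => hx.1) hWc
    (fun i hi => ⟨by rw [Cardinal.mk_image_eq_of_injOn _ _ (hinj i hi), hUc i hi],
      fun l hl l' hl' hne => hdisj i hi l hl l' hl' hne⟩)
  have hge : ∀ y ∈ T \ B, ∀ z ∈ p y, y ≤ z := by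
    intro y hy z hz
    obtain ⟨⟨w, hw, hwp⟩, -⟩ := hp1 y hy
    have := (hq1 y hy w hw).2 z (hwp ▸ hz)
    rw [this]
    exact le_sup_left
  have hmix : ∀ x ∈ B, ∀ x' ∈ T \ B, x ≠ x' → List.Disjoint (p0 x) (x' :: p x') := by
    intro x hx x' hx' hne z hz hz'
    rcases List.mem_cons.1 hz' with rfl | hz'
    · have h1 := hp0 x hx
      exact not_le_of hT hx'.1 (hB hx) (Ne.symm hne) (chain_ge _ _ h1.1.1 h1.1.2.1 _ hz)
    · exact (hp1 x' hx').2 z hz' (Set.mem_biUnion hx hz)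
  refine ⟨fun x => if x ∈ B then p0 x else x :: p x, ?_, ?_⟩
  · intro x hx
    by_cases hxB : x ∈ B
    · simp only [hxB, if_true]
      exact hp0 x hxB
    · simp only [hxB, if_false]
      have hx' : x ∈ T \ B := ⟨hx, hxB⟩
      obtain ⟨⟨w, hw, hwp⟩, -⟩ := hp1 x hx'
      obtain ⟨r1, r2⟩ := hq1 x hx' w hw
      rw [hwp] at r1 r2
      exact hL L ρ hρ b T x w (p x) hT hx (hU x hx' hw) r1 r2
  · intro x hx x' hx' hne
    by_cases hxB : x ∈ B <;> by_cases hxB' : x' ∈ B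
    · simp only [hxB, hxB', if_true]
      exact hp0' x hxB x' hxB' hne
    · simp only [hxB, hxB', if_true, if_false]
      exact hmix x hxB x' ⟨hx', hxB'⟩ hne
    · simp only [hxB, hxB', if_true, if_false]
      exact (hmix x' hxB' x ⟨hx, hxB⟩ hne.symm).symm
    · simp only [hxB, hxB', if_false]
      intro z hz hz'
      rcases List.mem_cons.1 hz with rfl | hz
      · rcases List.mem_cons.1 hz' with h | hz'
        · exact hne h
        · exact not_le_of hT hx hx' hne (hge x' ⟨hx', hxB'⟩ z hz')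
      · rcases List.mem_cons.1 hz' with rfl | hz'
        · exact not_le_of hT hx' hx (Ne.symm hne) (hge x ⟨hx, hxB⟩ z hz)
        · exact hp2 x ⟨hx, hxB⟩ x' ⟨hx', hxB'⟩ hne hz hz'

end Pool.Agent.L7h5.GL
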