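import Pool.Agent.L7h3.GL.Stm

set_option autoImplicit false

/-! Project GL, part LINB. -/

namespace Pool.Agent.L7h5.GL
open Cardinal Pool.Agent.L7h3.GL

lemma not_le_of {L : Type} [CompleteLattice L] {b : L} {T : Set L} (hT : Cv b T) {a a' : L}
    (ha : a ∈ T) (ha' : a' ∈ T) (hne : a ≠ a') : ¬ a' ≤ a := by
  intro h
  rcases (hT a ha).eq_or_eq (hT a' ha').le h with h1 | h1
  · exact (hT a' ha').ne' h1
  · exact hne h1.symm

lemma exch {L : Type} [CompleteLattice L] {ρ : L → ℕ} (hρ : Rk ρ) {b : L} {T : Set L}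
    (hT : Cv b T) {y a a' : L} (hy : y ∈ T) (ha : a ∈ T) (ha' : a' ∈ T) (hne : a ≠ a')
    (h : a' ≤ a ⊔ y) : y ≤ a ⊔ a' := by
  by_cases hya : y ≤ a
  · exact hya.trans le_sup_left
  have h1 : a ⋖ a ⊔ y := hρ.sm b y a (hT y hy) (hT a ha).le hya
  rcases h1.eq_or_eq (le_sup_left : a ≤ a ⊔ a') (sup_le le_sup_left h) with h2 | h2
  · exact absurd (h2 ▸ le_sup_right : a' ≤ a) (not_le_of hT ha ha' hne)
  · rw [h2]
    exact le_sup_right

theorem linb : S_LINB := by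
  intro L _ ρ hρ b T x x' hT hx hx' hne
  rw [Cardinal.mul_def]
  let f : {a // a ∈ T ∧ ¬ a ≤ x ⊔ x'} → (Con x T) × (Con x' T) := fun a =>
    (⟨x ⊔ a.1, a.1, a.2.1, fun h => a.2.2 (h.le.trans le_sup_left), rfl⟩,
     ⟨x' ⊔ a.1, a.1, a.2.1, fun h => a.2.2 (h.le.trans le_sup_right), rfl⟩)
  refine Cardinal.mk_le_of_injective (f := f) ?_
  rintro ⟨a, ha, haw⟩ ⟨a', ha', haw'⟩ h
  have h1 : x ⊔ a = x ⊔ a' := congrArg (fun p => (p.1 : L)) h
  have h2 : x' ⊔ a = x' ⊔ a' := congrArg (fun p => (p.2 : L)) h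
  apply Subtype.ext
  by_contra hne'
  have h3 : x' ≤ a ⊔ a' := exch hρ hT hx' ha ha' hne' (by
    rw [sup_comm, h2]
    exact le_sup_right)
  have h4 : x' ≤ x ⊔ a := h3.trans (sup_le le_sup_right (by rw [h1]; exact le_sup_right))
  exact haw (exch hρ hT ha hx hx' hne h4)

theorem s_LINB (_h : S_LINA) : S_LINB := linb

end Pool.Agent.L7h5.GL
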